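import Pool.Agent.H918R3.Uq7

/-!
The center of the positive part `U^+` of the quantum affine algebra of type `A_1^(1)`
(generators `A`, `A*`, the two cubic q-Serre relations, `q` nonzero and not a root of unity)
consists of the scalars only.

Outline: `U^+` is graded by pairs of degrees and carries left and right skew derivations.
A homogeneous central element is killed by both right skew derivations.  A homogeneous element
of positive degree killed by both right skew derivations is zero: by induction it is also killed
by the left skew derivations, integrability of the q-adjoint action forces its degree to be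
`(b, b)`, it is then primitive for the coproduct, the antipode negates it, and the square of the
antipode acts on degree `(b, b)` by `q^(-4b)`, which is not `1`.
-/

open Pool.Agent.H918R3.Uq in
theorem Pool.Agent.Results.MP_cafee0_al.CenterTrivial.result (K : Type*) [Field K] (q : K)
    (hq : q ≠ 0) (hr : ∀ n : ℕ, 0 < n → q ^ n ≠ 1) :
    (∀ z : RingQuot (Rel K q), (∀ w : RingQuot (Rel K q), z * w = w * z) ↔
      ∃ c : K, z = algebraMap K (RingQuot (Rel K q)) c) ∧
    Function.Injective (algebraMap K (RingQuot (Rel K q))) := by
  have hb : Subalgebra.center K (RingQuot (Rel K q)) = ⊥ := center_eq_bot hq hr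
  refine ⟨fun z => ⟨fun h => ?_, ?_⟩, algebraMap_inj (K := K) (q := q)⟩
  · have h1 : z ∈ Subalgebra.center K (RingQuot (Rel K q)) :=
      Subalgebra.mem_center_iff.2 fun w => (h w).symm
    rw [hb, Algebra.mem_bot] at h1
    obtain ⟨c, hc⟩ := h1
    exact ⟨c, hc.symm⟩
  · rintro ⟨c, rfl⟩ w
    exact Algebra.commutes c w
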